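import Mathlib
import Pool.Agent.Lib.MP_35cce7_an.Defs
import Pool.Agent.Lib.MP_35cce7_an.FDefs
import Pool.Agent.Lib.MP_35cce7_an.KFin

namespace Pool.Agent.Results.MP_35cce7_an.TwoDim

open Pool.Agent.Lib.MP_35cce7_an

theorem result (n : ℕ) (M : CoxeterMatrix (Fin n)) :
    HasRD M ↔ ∀ T : Finset (Fin n), 4 ≤ T.card → (∀ i ∈ T, ∀ j ∈ T, M i j ≠ 0) →
      (∀ U ⊆ T, U.Nonempty → U ≠ T → ∃ i ∈ U, ∃ j ∈ T \ U, M i j ≠ 2) →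
      ((∃ i ∈ T, ∃ j ∈ T, ∃ k ∈ T, M i j = 2 ∧ M j k = 2 ∧ 3 ≤ M i k) ∨
        ∃ U ⊆ T, ∀ i ∈ T, ∀ j ∈ T, i ≠ j → (i ∈ U ↔ j ∈ U) → M i j = 2) →
      (∃ i ∈ T, ∃ j ∈ T, ∃ k ∈ T, i ≠ j ∧ j ≠ k ∧ i ≠ k ∧
        (1 : ℚ) < 1 / M i j + 1 / M j k + 1 / M i k) →
      (∀ a ∈ T, ¬ Far M a ((T : Set (Fin n)) \ {a})) →
      HasRD (res M T) :=
  K.main6 n M

end Pool.Agent.Results.MP_35cce7_an.TwoDim
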